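import Pool.Agent.Helper61.K4.Defs

/-!
# K4, block A1: a link of the Lie algebra is a link of the group
-/

set_option autoImplicit false

open Matrix H77MT Pool.Agent.Helper79.KN Pool.Agent.Helper61.K4

namespace Pool.Agent.Helper9.K4

variable {Γ X n K S : Type} [Group Γ] [DecidableEq X] [Fintype X] [Fintype n] [DecidableEq n] [Field K]

/-- a matrix which all matrices of trace zero multiply up to a scalar is scalar -/
private theorem scal [CharZero K] (hN : 1 < Fintype.card n) {Z : Matrix n n K} (hZ : IsUnit Z.det)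
    (h : ∀ c : Matrix n n K, c.trace = 0 → ∃ μ : K, c * Z - Z * c = μ • Z) : ∃ l : K, l ≠ 0 ∧ Z = l • (1 : Matrix n n K) := by
  have hcomm : ∀ c : Matrix n n K, c.trace = 0 → c * Z = Z * c := by
    intro c hc
    obtain ⟨μ, hμ⟩ := h c hc
    have h1 : (Z⁻¹ * (c * Z - Z * c)).trace = 0 := by
      rw [Matrix.mul_sub, Matrix.trace_sub, ← Matrix.mul_assoc Z⁻¹ Z c, Matrix.nonsing_inv_mul _ hZ, Matrix.one_mul,
        Matrix.trace_mul_comm, Matrix.mul_assoc, Matrix.mul_nonsing_inv _ hZ, Matrix.mul_one, sub_self]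
    rw [hμ, Matrix.mul_smul, Matrix.nonsing_inv_mul _ hZ, Matrix.trace_smul, Matrix.trace_one, smul_eq_mul] at h1
    have h2 : (Fintype.card n : K) ≠ 0 := Nat.cast_ne_zero.2 (by omega)
    have h3 : μ = 0 := (mul_eq_zero.1 h1).resolve_right h2
    rw [h3, zero_smul, sub_eq_zero] at hμ
    exact hμ
  obtain ⟨l, hl⟩ := Matrix.mem_range_scalar_of_commute_single (M := Z) fun i j hij => hcomm _ (Matrix.trace_single_eq_of_ne _ _ _ hij)
  have hl' : Z = l • (1 : Matrix n n K) := by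
    rw [← hl, Matrix.scalar_apply, ← Matrix.smul_one_eq_diagonal]
  refine ⟨l, fun h0 => ?_, hl'⟩
  haveI : Nonempty n := Fintype.card_pos_iff.1 (by omega)
  rw [hl', h0, zero_smul, Matrix.det_zero] at hZ
  exact not_isUnit_zero hZ

private theorem val_mul_inv (ρ : Rep Γ X n K) (x : X) (γ : Γ) : (ρ x γ : Matrix n n K) * (ρ x γ⁻¹ : Matrix n n K) = 1 := by
  rw [← Units.val_mul, ← map_mul, mul_inv_cancel, map_one, Units.val_one]

private theorem val_inv_mul (ρ : Rep Γ X n K) (x : X) (γ : Γ) : (ρ x γ⁻¹ : Matrix n n K) * (ρ x γ : Matrix n n K) = 1 := by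
  rw [← Units.val_mul, ← map_mul, inv_mul_cancel, map_one, Units.val_one]

private theorem val_det (ρ : Rep Γ X n K) (x : X) (γ : Γ) : IsUnit (ρ x γ : Matrix n n K).det :=
  Matrix.isUnits_det_units _

/-- A1 (a link of the Lie algebra is a link of the group) -/
theorem link_group [CharZero K] {ρ : Rep Γ X n K} {Δ : Subgroup Γ} (hn : Δ.Normal) (hN : 1 < Fintype.card n) {i j : X}
    (hb : ∀ c : Matrix n n K, c.trace = 0 → ∃ a ∈ fam ρ Δ, a i = c) (h : IsLink (fam ρ Δ) i j) :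
    ∃ T : Matrix n n K, IsUnit T.det ∧
      ((∀ γ, ∃ l : K, l ≠ 0 ∧ (ρ j γ : Matrix n n K) * T = l • (T * (ρ i γ : Matrix n n K))) ∨
        ∀ γ, ∃ l : K, l ≠ 0 ∧ (ρ j γ : Matrix n n K)ᵀ * T = l • (T * (ρ i γ⁻¹ : Matrix n n K))) := by
  obtain ⟨T, hT, hL | hL⟩ := h
  · refine ⟨T, hT, Or.inl fun γ => ?_⟩
    set W : Matrix n n K := (ρ j γ⁻¹ : Matrix n n K) * T * (ρ i γ : Matrix n n K) with hW
    obtain ⟨Z, hTZ, hZd⟩ : ∃ Z : Matrix n n K, T * Z = W ∧ IsUnit Z.det := by
      refine ⟨T⁻¹ * W, by rw [← Matrix.mul_assoc, Matrix.mul_nonsing_inv _ hT, Matrix.one_mul], ?_⟩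
      rw [hW, Matrix.det_mul, Matrix.det_mul, Matrix.det_mul]
      exact (Matrix.isUnit_nonsing_inv_det T hT).mul (((val_det ρ j γ⁻¹).mul hT).mul (val_det ρ i γ))
    obtain ⟨l, hl0, hl⟩ := scal hN hZd fun c hc => by
      obtain ⟨a, ha, rfl⟩ := hb c hc
      obtain ⟨c, hc⟩ := hL a ha
      obtain ⟨c', hc'⟩ := hL _ (fam_conj ρ hn γ ha)
      have e1 : a j * W - W * a i = c' • W := by
        have h1 := congrArg (fun M => (ρ j γ⁻¹ : Matrix n n K) * M * (ρ i γ : Matrix n n K)) hc'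
        simp only [Matrix.mul_sub, Matrix.sub_mul, Matrix.mul_smul, Matrix.smul_mul] at h1
        rw [hW, ← h1]
        congr 1
        · calc a j * ((ρ j γ⁻¹ : Matrix n n K) * T * (ρ i γ : Matrix n n K)) =
                1 * a j * (ρ j γ⁻¹ : Matrix n n K) * T * (ρ i γ : Matrix n n K) := by
                  rw [Matrix.one_mul]; simp only [Matrix.mul_assoc]
            _ = _ := by rw [← val_inv_mul ρ j γ]; simp only [Matrix.mul_assoc]
        · calc (ρ j γ⁻¹ : Matrix n n K) * T * (ρ i γ : Matrix n n K) * a i =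
                (ρ j γ⁻¹ : Matrix n n K) * T * (ρ i γ : Matrix n n K) * a i * 1 := by rw [Matrix.mul_one]
            _ = _ := by rw [← val_inv_mul ρ i γ]; simp only [Matrix.mul_assoc]
      refine ⟨c' - c, ?_⟩
      have e2 : T * (a i * Z - Z * a i) = T * ((c' - c) • Z) := by
        have e3 : T * a i = a j * T - c • T := by rw [← hc]; abel
        rw [Matrix.mul_sub, ← Matrix.mul_assoc T (a i) Z, ← Matrix.mul_assoc T Z (a i), hTZ, e3, Matrix.sub_mul, Matrix.smul_mul,
          Matrix.mul_assoc _ T Z, hTZ, Matrix.mul_smul, hTZ, sub_smul, ← e1]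
        abel
      have e4 := congrArg (fun M => T⁻¹ * M) e2
      simpa only [← Matrix.mul_assoc, Matrix.nonsing_inv_mul _ hT, Matrix.one_mul] using e4
    refine ⟨l⁻¹, inv_ne_zero hl0, ?_⟩
    have e5 : (ρ j γ⁻¹ : Matrix n n K) * T * (ρ i γ : Matrix n n K) = l • T := by
      rw [← hW, ← hTZ, hl, Matrix.mul_smul, Matrix.mul_one]
    have e6 : T * (ρ i γ : Matrix n n K) = l • ((ρ j γ : Matrix n n K) * T) := by
      rw [← Matrix.mul_smul, ← e5, Matrix.mul_assoc (ρ j γ⁻¹ : Matrix n n K), ← Matrix.mul_assoc, val_mul_inv, Matrix.one_mul]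
    rw [e6, smul_smul, inv_mul_cancel₀ hl0, one_smul]
  · refine ⟨T, hT, Or.inr fun γ => ?_⟩
    set W : Matrix n n K := (ρ j γ : Matrix n n K)ᵀ * T * (ρ i γ : Matrix n n K) with hW
    obtain ⟨Z, hTZ, hZd⟩ : ∃ Z : Matrix n n K, T * Z = W ∧ IsUnit Z.det := by
      refine ⟨T⁻¹ * W, by rw [← Matrix.mul_assoc, Matrix.mul_nonsing_inv _ hT, Matrix.one_mul], ?_⟩
      rw [hW, Matrix.det_mul, Matrix.det_mul, Matrix.det_mul, Matrix.det_transpose]
      exact (Matrix.isUnit_nonsing_inv_det T hT).mul (((val_det ρ j γ).mul hT).mul (val_det ρ i γ))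
    obtain ⟨l, hl0, hl⟩ := scal hN hZd fun c hc => by
      obtain ⟨a, ha, rfl⟩ := hb c hc
      obtain ⟨c, hc⟩ := hL a ha
      obtain ⟨c', hc'⟩ := hL _ (fam_conj ρ hn γ ha)
      have e1 : (a j)ᵀ * W + W * a i = c' • W := by
        have h1 := congrArg (fun M => (ρ j γ : Matrix n n K)ᵀ * M * (ρ i γ : Matrix n n K)) hc'
        simp only [Matrix.mul_add, Matrix.add_mul, Matrix.mul_smul, Matrix.smul_mul, Matrix.transpose_mul] at h1
        rw [hW, ← h1]
        congr 1
        · have e0 : (ρ j γ : Matrix n n K)ᵀ * (ρ j γ⁻¹ : Matrix n n K)ᵀ = 1 := by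
            rw [← Matrix.transpose_mul, val_inv_mul, Matrix.transpose_one]
          calc (a j)ᵀ * ((ρ j γ : Matrix n n K)ᵀ * T * (ρ i γ : Matrix n n K)) =
                1 * (a j)ᵀ * (ρ j γ : Matrix n n K)ᵀ * T * (ρ i γ : Matrix n n K) := by
                  rw [Matrix.one_mul]; simp only [Matrix.mul_assoc]
            _ = _ := by rw [← e0]; simp only [Matrix.mul_assoc]
        · calc (ρ j γ : Matrix n n K)ᵀ * T * (ρ i γ : Matrix n n K) * a i =
                (ρ j γ : Matrix n n K)ᵀ * T * (ρ i γ : Matrix n n K) * a i * 1 := by rw [Matrix.mul_one]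
            _ = _ := by rw [← val_inv_mul ρ i γ]; simp only [Matrix.mul_assoc]
      refine ⟨c - c', ?_⟩
      have e2 : T * (a i * Z - Z * a i) = T * ((c - c') • Z) := by
        have e3 : T * a i = c • T - (a j)ᵀ * T := by rw [← hc]; abel
        rw [Matrix.mul_sub, ← Matrix.mul_assoc T (a i) Z, ← Matrix.mul_assoc T Z (a i), hTZ, e3, Matrix.sub_mul, Matrix.smul_mul,
          Matrix.mul_assoc _ T Z, hTZ, Matrix.mul_smul, hTZ, sub_smul, ← e1]
        abel
      have e4 := congrArg (fun M => T⁻¹ * M) e2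
      simpa only [← Matrix.mul_assoc, Matrix.nonsing_inv_mul _ hT, Matrix.one_mul] using e4
    refine ⟨l, hl0, ?_⟩
    have e5 : (ρ j γ : Matrix n n K)ᵀ * T * (ρ i γ : Matrix n n K) = l • T := by
      rw [← hW, ← hTZ, hl, Matrix.mul_smul, Matrix.mul_one]
    rw [← Matrix.smul_mul, ← e5, Matrix.mul_assoc _ (ρ i γ : Matrix n n K), val_mul_inv, Matrix.mul_one]

end Pool.Agent.Helper9.K4
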